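import Pool.Agent.H78.S.Targets

/-!
# MP_9d0bb7_lc: row FGA, the symmetric group on `N` letters as a section of a power
-/

set_option autoImplicit false

namespace Pool.Agent.H11.S

open Set Pool.Agent.H77.BC Pool.Agent.H78.S

theorem exists_pow_ne {N : ℕ} (h2 : 2 ≤ N) (h4 : N ≤ 4) :
    ∃ g : Equiv.Perm (Fin N), g ^ (N - 1).factorial ≠ 1 := by
  obtain h | h | h : N = 2 ∨ N = 3 ∨ N = 4 := by omega
  · subst h
    exact ⟨finRotate 2, by decide⟩
  · subst h
    exact ⟨finRotate 3, by decide⟩
  · subst h
    exact ⟨finRotate 4, by decide⟩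

theorem pf_FGA (hFGB : T_FGB) : T_FGA := by
  intro k s N L _ ι π hs hπ hker
  by_contra hlt
  have hsN : s ≤ N - 1 := by omega
  have hfac : s.factorial ≤ (N - 1).factorial := Nat.factorial_le hsN
  by_cases h5 : 5 ≤ N
  · have hcard : 5 ≤ Nat.card (Fin N) := by
      rw [Nat.card_eq_fintype_card, Fintype.card_fin]
      exact h5
    have hsimple : IsSimpleGroup (alternatingGroup (Fin N)) := alternatingGroup.isSimpleGroup hcard
    have hnt : Nontrivial (Fin N) := Fin.nontrivial_iff_two_le.2 (by omega)
    refine hFGB s (alternatingGroup (Fin N)) ?_ ?_ k ((alternatingGroup (Fin N)).comap π)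
      (ι.comp (Subgroup.subtype _)) (π.subgroupComap (alternatingGroup (Fin N)))
      (π.subgroupComap_surjective_of_surjective _ hπ) ?_
    · by_contra hcomm
      have hcomm' : ∀ a b : alternatingGroup (Fin N), a * b = b * a := by
        intro a b
        by_contra h
        exact hcomm ⟨a, b, h⟩
      have h1 := commutator_alternatingGroup_eq_top hcard
      have h2 : commutator (alternatingGroup (Fin N)) = ⊥ := by
        rw [commutator_def, eq_bot_iff, Subgroup.commutator_le]
        intro a _ b _
        rw [Subgroup.mem_bot, commutatorElement_eq_one_iff_mul_comm]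
        exact hcomm' a b
      rw [h2] at h1
      exact bot_ne_top h1
    · have h1 := two_mul_nat_card_alternatingGroup (α := Fin N)
      rw [Nat.card_perm, Nat.card_eq_fintype_card (α := Fin N), Fintype.card_fin] at h1
      obtain ⟨M, rfl⟩ : ∃ M, N = M + 1 := ⟨N - 1, by omega⟩
      rw [Nat.factorial_succ] at h1
      rw [Nat.add_sub_cancel] at hfac
      have h3 : 0 < M.factorial := Nat.factorial_pos M
      have h4 : 2 * M.factorial < (M + 1) * M.factorial :=
        Nat.mul_lt_mul_of_pos_right (by omega) h3
      omega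
    · intro x hx
      rw [MonoidHom.mem_ker] at hx ⊢
      have h1 : (x : L) ∈ ι.ker := hx
      have h2 : π (x : L) = 1 := hker h1
      exact Subtype.ext h2
  · obtain ⟨g, hg⟩ := exists_pow_ne (N := N) (by omega) (by omega)
    apply hg
    obtain ⟨l, rfl⟩ := hπ g
    have h1 : l ^ (N - 1).factorial ∈ ι.ker := by
      rw [MonoidHom.mem_ker, map_pow]
      funext i
      rw [Pi.pow_apply, Pi.one_apply]
      obtain ⟨c, hc⟩ := Nat.factorial_dvd_factorial hsN
      have h2 : (ι l i) ^ s.factorial = 1 := by
        have h3 := pow_card_eq_one (x := ι l i)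
        rw [Fintype.card_perm, Fintype.card_fin] at h3
        exact h3
      rw [hc, pow_mul, h2, one_pow]
    have h2 := hker h1
    rw [MonoidHom.mem_ker, map_pow] at h2
    exact h2

end Pool.Agent.H11.S
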